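import Mathlib

/-!
# Closed polygons through unit vectors surrounding the origin have length at least four
-/

open Finset

namespace Pool.Agent.Results.MP_768819_an.CircuitLengthFour

variable {X : Type*} [NormedAddCommGroup X] [NormedSpace ℝ X]

/-- Arc length up to the vertex `m`. -/
noncomputable def arc (x : ℕ → X) (m : ℕ) : ℝ := ∑ k ∈ range m, ‖x (k + 1) - x k‖

lemma arc_succ (x : ℕ → X) (m : ℕ) : arc x (m + 1) = arc x m + ‖x (m + 1) - x m‖ := by
  rw [arc, arc, sum_range_succ]

lemma arc_mono (x : ℕ → X) : Monotone (arc x) :=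
  monotone_nat_of_le_succ fun m => by rw [arc_succ]; linarith [norm_nonneg (x (m + 1) - x m)]

lemma norm_sub_le_arc (x : ℕ → X) {i j : ℕ} (hij : i ≤ j) : ‖x j - x i‖ ≤ arc x j - arc x i := by
  induction j, hij using Nat.le_induction with
  | base => simp
  | succ j hij ih =>
    rw [arc_succ]
    have h : x (j + 1) - x i = (x (j + 1) - x j) + (x j - x i) := by abel
    rw [h]
    linarith [norm_add_le (x (j + 1) - x j) (x j - x i)]

lemma norm_sub_le_abs (x : ℕ → X) (i j : ℕ) : ‖x i - x j‖ ≤ |arc x i - arc x j| := by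
  rcases le_total i j with h | h
  · rw [norm_sub_rev, abs_sub_comm]
    exact (norm_sub_le_arc x h).trans (le_abs_self _)
  · exact (norm_sub_le_arc x h).trans (le_abs_self _)

lemma one_le_sum (x : ℕ → X) (r : ℕ) (w : ℕ → ℝ) (hw : ∀ j ∈ range r, 0 ≤ w j)
    (hw1 : ∑ j ∈ range r, w j = 1) (hw0 : ∑ j ∈ range r, w j • x j = 0) (y : X) (hy : ‖y‖ = 1) :
    1 ≤ ∑ j ∈ range r, w j * ‖y - x j‖ := by
  have h1 : y = ∑ j ∈ range r, w j • (y - x j) := by
    simp only [smul_sub]
    rw [sum_sub_distrib, hw0, sub_zero, ← sum_smul, hw1, one_smul]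
  calc (1 : ℝ) = ‖∑ j ∈ range r, w j • (y - x j)‖ := by rw [← h1, hy]
    _ ≤ ∑ j ∈ range r, ‖w j • (y - x j)‖ := norm_sum_le _ _
    _ = ∑ j ∈ range r, w j * ‖y - x j‖ := by
      apply sum_congr rfl
      intro j hj
      rw [norm_smul, Real.norm_of_nonneg (hw j hj)]

lemma four_le (x : ℕ → X) (r : ℕ) (hr : 0 < r) (hx : ∀ m, ‖x m‖ = 1) (hper : x r = x 0)
    (w : ℕ → ℝ) (hw : ∀ j ∈ range r, 0 ≤ w j)
    (hw1 : ∑ j ∈ range r, w j = 1) (hw0 : ∑ j ∈ range r, w j • x j = 0) : 4 ≤ arc x r := by
  set L := arc x r with hL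
  have hs0 : arc x 0 = 0 := by simp [arc]
  have hsL : ∀ j ∈ range r, arc x j ≤ L := fun j hj => arc_mono x (mem_range.1 hj).le
  have hs : ∀ j, 0 ≤ arc x j := fun j => by rw [← hs0]; exact arc_mono x (Nat.zero_le j)
  have hA := fun i => one_le_sum x r w hw hw1 hw0 (x i) (hx i)
  -- distance from the zeroth vertex
  have h0 : 1 ≤ ∑ j ∈ range r, w j * min (arc x j) (L - arc x j) := by
    refine (hA 0).trans (sum_le_sum fun j hj => mul_le_mul_of_nonneg_left ?_ (hw j hj))
    apply le_min
    · have := norm_sub_le_arc x (Nat.zero_le j)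
      rw [norm_sub_rev]; rwa [hs0, sub_zero] at this
    · rw [← hper]
      exact norm_sub_le_arc x (mem_range.1 hj).le
  have hLpos : 1 ≤ L := by
    refine h0.trans ?_
    calc ∑ j ∈ range r, w j * min (arc x j) (L - arc x j) ≤ ∑ j ∈ range r, w j * L := by
          refine sum_le_sum fun j hj => mul_le_mul_of_nonneg_left ?_ (hw j hj)
          exact (min_le_left _ _).trans (hsL j hj)
      _ = L := by rw [← sum_mul, hw1, one_mul]
  -- the edge containing the antipode
  have hex : ∃ m, L / 2 ≤ arc x m := ⟨r, by rw [← hL]; linarith⟩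
  classical
  obtain ⟨k, hk⟩ : ∃ k, Nat.find hex = k + 1 := by
    apply Nat.exists_eq_succ_of_ne_zero
    intro h
    have := Nat.find_spec hex
    rw [h, hs0] at this
    linarith
  have hk1 : L / 2 ≤ arc x (k + 1) := by rw [← hk]; exact Nat.find_spec hex
  have hk0 : arc x k < L / 2 := by
    by_contra hcon
    have := Nat.find_min' hex (not_lt.1 hcon)
    omega
  set a := arc x (k + 1) - L / 2 with ha
  set b := L / 2 - arc x k with hb
  have ha0 : 0 ≤ a := by rw [ha]; linarith
  have hb0 : 0 < b := by rw [hb]; linarith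
  have h1 : 1 ≤ ∑ j ∈ range r, w j * |L / 2 - arc x j| := by
    have e1 : 1 ≤ ∑ j ∈ range r, w j * |arc x k - arc x j| :=
      (hA k).trans (sum_le_sum fun j hj =>
        mul_le_mul_of_nonneg_left (norm_sub_le_abs x k j) (hw j hj))
    have e2 : 1 ≤ ∑ j ∈ range r, w j * |arc x (k + 1) - arc x j| :=
      (hA (k + 1)).trans (sum_le_sum fun j hj =>
        mul_le_mul_of_nonneg_left (norm_sub_le_abs x (k + 1) j) (hw j hj))
    have e3 : a * ∑ j ∈ range r, w j * |arc x k - arc x j| +
        b * ∑ j ∈ range r, w j * |arc x (k + 1) - arc x j| =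
        (a + b) * ∑ j ∈ range r, w j * |L / 2 - arc x j| := by
      rw [mul_sum, mul_sum, mul_sum, ← sum_add_distrib]
      apply sum_congr rfl
      intro j _
      rcases Nat.lt_or_ge k j with h | h
      · have h2 : arc x (k + 1) ≤ arc x j := arc_mono x h
        rw [abs_of_nonpos (by linarith), abs_of_nonpos (by linarith),
          abs_of_nonpos (by linarith), ha, hb]
        ring
      · have h2 : arc x j ≤ arc x k := arc_mono x h
        rw [abs_of_nonneg (by linarith), abs_of_nonneg (by linarith),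
          abs_of_nonneg (by linarith), ha, hb]
        ring
    have e4 : (a + b) * 1 ≤ (a + b) * ∑ j ∈ range r, w j * |L / 2 - arc x j| := by
      rw [← e3]
      have := mul_le_mul_of_nonneg_left e1 ha0
      have := mul_le_mul_of_nonneg_left e2 hb0.le
      linarith
    exact le_of_mul_le_mul_left e4 (by linarith)
  have h2 : ∑ j ∈ range r, w j * min (arc x j) (L - arc x j) +
      ∑ j ∈ range r, w j * |L / 2 - arc x j| = L / 2 := by
    rw [← sum_add_distrib]
    calc ∑ j ∈ range r, (w j * min (arc x j) (L - arc x j) + w j * |L / 2 - arc x j|)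
        = ∑ j ∈ range r, w j * (L / 2) := by
          apply sum_congr rfl
          intro j _
          rw [← mul_add]
          congr 1
          rcases le_total (arc x j) (L / 2) with h | h
          · rw [min_eq_left (by linarith), abs_of_nonneg (by linarith)]; ring
          · rw [min_eq_right (by linarith), abs_of_nonpos (by linarith)]; ring
      _ = L / 2 := by rw [← sum_mul, hw1, one_mul]
  linarith

/-- For every real normed space `X`, all unit vectors `p_1, …, p_r` (`r ≥ 2`) whose convex hull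
contains `0` and every cyclic ordering `σ`, the closed polygon has length at least `4`. Here `k + 1`
is the cyclic successor in `Fin r`. -/
theorem result {X : Type*} [NormedAddCommGroup X] [NormedSpace ℝ X] (r : ℕ) [NeZero r]
    (hr : 2 ≤ r) (p : Fin r → X) (hp : ∀ i, ‖p i‖ = 1)
    (h0 : (0 : X) ∈ convexHull ℝ (Set.range p)) (σ : Equiv.Perm (Fin r)) :
    4 ≤ ∑ k : Fin r, ‖p (σ (k + 1)) - p (σ k)‖ := by
  rw [convexHull_range_eq_exists_affineCombination] at h0
  obtain ⟨s, v, hv0, hv1, hv⟩ := h0
  rw [Finset.affineCombination_eq_linear_combination _ _ _ hv1] at hv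
  set w : Fin r → ℝ := fun i => if i ∈ s then v i else 0 with hw
  have hw0 : ∀ i, 0 ≤ w i := by
    intro i
    simp only [hw]
    split_ifs with h
    · exact hv0 i h
    · exact le_rfl
  have hw1 : ∑ i, w i = 1 := by
    simp only [hw]
    rw [Finset.sum_ite_mem, Finset.univ_inter, hv1]
  have hw2 : ∑ i, w i • p i = 0 := by
    simp only [hw, ite_smul, zero_smul]
    rw [Finset.sum_ite_mem, Finset.univ_inter, hv]
  let x : ℕ → X := fun m => p (σ (Fin.ofNat r m))
  have hx : ∀ m, ‖x m‖ = 1 := fun m => hp _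
  have hconv : ∀ g : Fin r → ℝ, ∑ j ∈ range r, g (Fin.ofNat r j) = ∑ i : Fin r, g i := by
    intro g
    rw [Finset.sum_range]
    apply sum_congr rfl
    intro i _
    congr 1
    ext
    simp [Fin.ofNat, Nat.mod_eq_of_lt i.2]
  have hconv' : ∀ g : Fin r → X, ∑ j ∈ range r, g (Fin.ofNat r j) = ∑ i : Fin r, g i := by
    intro g
    rw [Finset.sum_range]
    apply sum_congr rfl
    intro i _
    congr 1
    ext
    simp [Fin.ofNat, Nat.mod_eq_of_lt i.2]
  have hsucc : ∀ m : ℕ, Fin.ofNat r (m + 1) = Fin.ofNat r m + 1 := by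
    intro m
    ext
    simp [Fin.ofNat, Fin.val_add]
  have key := four_le x r (by omega) hx (by
      show p (σ (Fin.ofNat r r)) = p (σ (Fin.ofNat r 0))
      congr 2
      ext
      simp [Fin.ofNat]) (fun j => w (σ (Fin.ofNat r j))) (fun j _ => hw0 _)
    (by rw [hconv (fun i => w (σ i))]; rw [Equiv.sum_comp σ w]; exact hw1)
    (by rw [hconv' (fun i => w (σ i) • p (σ i))]; rw [Equiv.sum_comp σ (fun i => w i • p i)]
        exact hw2)
  have harc : arc x r = ∑ k : Fin r, ‖p (σ (k + 1)) - p (σ k)‖ := by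
    rw [arc, ← hconv (fun k => ‖p (σ (k + 1)) - p (σ k)‖)]
    apply sum_congr rfl
    intro m _
    simp only [x, hsucc]
  rwa [harc] at key

end Pool.Agent.Results.MP_768819_an.CircuitLengthFour
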